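import Mathlib
import Pool.Agent.Lib.MP_7b07e0_lc.Final

/-! In every model `(M, ∈)` of `ZF + DC + AD_ℝ` (hence, by the completeness theorem, as a theorem of
`ZF + DC + AD_ℝ`): for every action of a Polish group on a separable metrizable space, the set of
orbits injects into the set of countable subsets of `ω₁`, or the quotient `2 ^ ω / E₀` injects into
the set of orbits. -/

namespace Pool.Agent.Results.MP_7b07e0_lc.OrbitDichotomy

open Pool.Agent.Lib.MP_f5c99b_lc Pool.Agent.Lib.MP_7b07e0_lc

universe u

theorem result (M : Type u) [Membership M M] (hM : IsModelOfZF M) (hDC : DependentChoice M)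
    (hAD : ADReals M) (G : PolishGroup M) (S : SepMetricSpace M) (A : Action G S.X) :
    (∃ w o P E O : M, IsOmega w ∧ IsOmega1 w o ∧ IsCountableSubsets w P o ∧ IsE0Quotient w E ∧
      A.IsOrbitSet O) ∧
    ∀ w o P E O : M, IsOmega w → IsOmega1 w o → IsCountableSubsets w P o → IsE0Quotient w E →
      A.IsOrbitSet O → CardLE O P ∨ CardLE E O := by
  have : Fact (IsModelOfZF M) := ⟨hM⟩
  exact main7b G S A hDC hAD

end Pool.Agent.Results.MP_7b07e0_lc.OrbitDichotomy
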